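import Pool.Agent.N693.DF.Base
import Pool.Agent.N436.DF.All

/-!
# Project DF, third batch (helper436): leaf `S3_base`, by helper693
-/

namespace Pool.Agent.N693.DF

open Pool.Agent.N436.DF

theorem base : S3_base := base_of a1_h

end Pool.Agent.N693.DF
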