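import Pool.Agent.N436.DF.Stm3

/-!
# Project DF, third batch (helper436): leaf `S3_base`, by helper693
-/

namespace Pool.Agent.N693.DF

open Finset Pool.Agent.N436.DF

variable {V : Type} [DecidableEq V]

/-- cross weight -/
def cw (H : Hub V) (X C : Finset V) : ℤ := ∑ x ∈ X, ∑ z ∈ C, ew P13 H x z

theorem ew_eq (H : Hub V) (u v : V) : ew P13 H u v = 12 * H.r u v + 5 * H.m u v := rfl

omit [DecidableEq V] in
theorem ew_symm {H : Hub V} (hO : Ok P13 H) (u v : V) : ew P13 H u v = ew P13 H v u := by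
  simp only [ew, hO.rsymm u v, hO.msymm u v]

omit [DecidableEq V] in
theorem ew_self {H : Hub V} (hO : Ok P13 H) (v : V) : ew P13 H v v = 0 := by
  simp only [ew, hO.r0 v, hO.m0 v, mul_zero, add_zero]

theorem ew_nn {H : Hub V} (hO : Ok P13 H) (u v : V) : 0 ≤ ew P13 H u v := by
  have h1 := hO.m_nn u v
  rw [ew_eq]
  rcases hO.r01 u v with h | h <;> rw [h] <;> linarith

theorem even_dbl {H : Hub V} (hO : Ok P13 H) (Y : Finset V) :
    ∃ k, ∑ u ∈ Y, ∑ v ∈ Y, ew P13 H u v = 2 * k := by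
  induction Y using Finset.induction_on with
  | empty => exact ⟨0, by simp⟩
  | insert a s ha ih =>
    obtain ⟨k, hk⟩ := ih
    refine ⟨k + ∑ v ∈ s, ew P13 H a v, ?_⟩
    have h1 : ∑ x ∈ s, ∑ v ∈ insert a s, ew P13 H x v
        = ∑ x ∈ s, (ew P13 H a x + ∑ v ∈ s, ew P13 H x v) :=
      sum_congr rfl fun x _ => by rw [sum_insert ha, ew_symm hO x a]
    rw [sum_insert ha, sum_insert ha, ew_self hO, h1, sum_add_distrib, hk]
    ring

theorem rho_two {H : Hub V} (hO : Ok P13 H) (Y : Finset V) : rho P13 H Y = 2 * hp H Y := by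
  obtain ⟨k, hk⟩ := even_dbl hO Y
  have h1 : rho P13 H Y = 2 * (∑ v ∈ Y, wt P13 H v - k) := by
    simp only [rho, hk]; ring
  have h2 : hp H Y = rho P13 H Y / 2 := rfl
  rw [h2, h1]
  omega

theorem cw_comm {H : Hub V} (hO : Ok P13 H) (X C : Finset V) : cw H C X = cw H X C := by
  unfold cw
  rw [sum_comm]
  exact sum_congr rfl fun x _ => sum_congr rfl fun z _ => ew_symm hO z x

theorem cw_nn {H : Hub V} (hO : Ok P13 H) (X C : Finset V) : 0 ≤ cw H X C :=
  sum_nonneg fun x _ => sum_nonneg fun z _ => ew_nn hO x z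

theorem cw_union (H : Hub V) {X Y : Finset V} (h : Disjoint X Y) (C : Finset V) :
    cw H (X ∪ Y) C = cw H X C + cw H Y C := sum_union h

theorem cw_eq (H : Hub V) (X C : Finset V) : cw H X C = 12 * rr H X C + 5 * mm H X C := by
  unfold cw rr mm
  rw [mul_sum, mul_sum, ← sum_add_distrib]
  refine sum_congr rfl fun x _ => ?_
  rw [mul_sum, mul_sum, ← sum_add_distrib]
  rfl

theorem rho_union {H : Hub V} (hO : Ok P13 H) {X C : Finset V} (h : Disjoint X C) :
    rho P13 H (X ∪ C) = rho P13 H X + rho P13 H C - 2 * cw H X C := by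
  have h1 : ∑ u ∈ X ∪ C, ∑ v ∈ X ∪ C, ew P13 H u v
      = (∑ u ∈ X, ∑ v ∈ X, ew P13 H u v + cw H X C)
        + (cw H C X + ∑ u ∈ C, ∑ v ∈ C, ew P13 H u v) := by
    rw [sum_union h]
    unfold cw
    rw [← sum_add_distrib, ← sum_add_distrib]
    congr 1 <;> exact sum_congr rfl fun x _ => sum_union h
  simp only [rho]
  rw [h1, cw_comm hO, sum_union h]
  ring

theorem hp_union {H : Hub V} (hO : Ok P13 H) {X C : Finset V} (h : Disjoint X C) :
    hp H (X ∪ C) = hp H X + hp H C - cw H X C := by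
  have h1 := rho_union hO h
  rw [rho_two hO, rho_two hO, rho_two hO] at h1
  linarith

theorem hp_sub {H : Hub V} (hO : Ok P13 H) (A B : Finset V) :
    hp H (A ∪ B) + hp H (A ∩ B) ≤ hp H A + hp H B := by
  have d1 : Disjoint (A \ B) (A ∩ B) := by
    rw [disjoint_left]; intro x hx hx'
    exact (mem_sdiff.1 hx).2 (mem_inter.1 hx').2
  have d2 : Disjoint (A ∩ B) (B \ A) := by
    rw [disjoint_left]; intro x hx hx'
    exact (mem_sdiff.1 hx').2 (mem_inter.1 hx).1
  have d3 : Disjoint A (B \ A) := disjoint_sdiff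
  have e1 : (A \ B) ∪ (A ∩ B) = A := by
    ext x; simp only [mem_union, mem_sdiff, mem_inter]; tauto
  have e2 : (A ∩ B) ∪ (B \ A) = B := by
    ext x; simp only [mem_union, mem_sdiff, mem_inter]; tauto
  have e3 : A ∪ (B \ A) = A ∪ B := by
    ext x; simp only [mem_union, mem_sdiff]; tauto
  have h2 := hp_union hO d2
  have h3 := hp_union hO d3
  have h4 : cw H A (B \ A) = cw H (A \ B) (B \ A) + cw H (A ∩ B) (B \ A) := by
    rw [← cw_union H d1, e1]
  rw [e2] at h2
  rw [e3] at h3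
  have h5 := cw_nn hO (A \ B) (B \ A)
  linarith

theorem hp_single {H : Hub V} (hO : Ok P13 H) (v : V) :
    hp H {v} = 5 * (H.c true v + 1) + 3 * H.c false v := by
  have h1 := rho_two hO {v}
  have h2 : rho P13 H {v} = 2 * (5 * (H.c true v + 1) + 3 * H.c false v) := by
    simp only [rho, sum_singleton, ew_self hO, sub_zero]
    rfl
  linarith

theorem base_of (hA : S_A1) : S3_base := by
  intro V _ H hO
  refine ⟨rho_two hO, fun X C h => ?_, hp_sub hO, hp_single hO, fun S hM => ?_⟩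
  · rw [hp_union hO h, cw_eq]; ring
  have k1 : ∀ Y, Y ⊆ S → Y.Nonempty → -2 ≤ hp H Y := by
    intro Y hY hn
    have h1 : -(2 * 3) < rho P13 H Y := hM.hyp Y hY hn
    rw [rho_two hO] at h1
    omega
  refine ⟨k1, fun Y hY hn hne => ?_⟩
  have h1 : rho P13 H S + 2 * 3 + 2 * 2 ≤ rho P13 H Y := hA V P13 H S Y hM hY hn hne
  have h2 := k1 S (Subset.refl S) (hn.mono hY)
  rw [rho_two hO, rho_two hO] at h1
  constructor <;> omega

end Pool.Agent.N693.DF
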